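import Mathlib
import Pool.Agent.H16.SUn3

set_option autoImplicit false

/-!
# Project SU: every element of SU(n), n >= 3, is a product of four involutions (interface)
-/

namespace Run7.h222.SU

open Matrix Pool.Agent.H16.SUn

/-- the data of the last case, `n` congruent to `2` modulo `4` (`pp a k` is the product of the first
`k` entries of `a`) -/
def Data (n : ℕ) (a : Fin n → ℂ) : Prop :=
  ∃ (j : ℕ) (hj : 2 * j + 3 < n) (e : ℂ) (w : ℝ), (e = 1 ∨ e = -1) ∧ 0 ≤ w ∧ w ≤ 1 ∧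
    e * star (a ⟨2 * j + 2, by omega⟩) + pp a (2 * j + 4) =
      w * (pp a (2 * j + 1) * a ⟨2 * j + 1, by omega⟩ + e * a ⟨2 * j + 3, hj⟩) +
      (1 - w) * (e * a ⟨2 * j + 1, by omega⟩ + pp a (2 * j + 1) * a ⟨2 * j + 3, hj⟩)

/-- Piece W.  Divide by `exp (I (τ - η) / 2)`: the identity says
`cos ((τ + η)/2) = w cos ((τ - η)/2 - γ) + (1 - w) cos ((τ - η)/2 - φ)`, and
`cos ((τ - η)/2 - x) - cos ((τ + η)/2) = 2 sin ((τ - x)/2) sin ((x + η)/2)`. -/
def S_W : Prop := ∀ φ γ η τ : ℝ,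
  (Real.sin ((τ - φ) / 2) * Real.sin ((φ + η) / 2)) *
    (Real.sin ((τ - γ) / 2) * Real.sin ((γ + η) / 2)) ≤ 0 →
  ∃ w : ℝ, 0 ≤ w ∧ w ≤ 1 ∧
    Complex.exp (τ * Complex.I) + Complex.exp (-(η * Complex.I)) =
      w * (Complex.exp ((τ - η - γ) * Complex.I) + Complex.exp (γ * Complex.I)) +
      (1 - w) * (Complex.exp (φ * Complex.I) + Complex.exp ((τ - η - φ) * Complex.I))

/-- Piece BLK.  With the rotation `U` with entries `√w, √(1-w)`, `R = U diag(l1, l2) Uᴴ`, the unitary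
matrix `Rᴴ diag(f, g)` has trace `k1 + k2` and determinant `k1 k2`; diagonalise it
(`Pool.Agent.H16.SUn.diagonalise`) and swap the columns if necessary. -/
def S_BLK : Prop := ∀ (l1 l2 k1 k2 f g : ℂ) (w : ℝ),
  star l1 * l1 = 1 → star l2 * l2 = 1 → star k1 * k1 = 1 → star k2 * k2 = 1 →
  star f * f = 1 → star g * g = 1 → l1 * l2 * (k1 * k2) = f * g → 0 ≤ w → w ≤ 1 →
  k1 + k2 = w * (star l1 * f + star l2 * g) + (1 - w) * (star l2 * f + star l1 * g) →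
  ∃ U V : Matrix (Fin 2) (Fin 2) ℂ, Uᴴ * U = 1 ∧ U * Uᴴ = 1 ∧ Vᴴ * V = 1 ∧ V * Vᴴ = 1 ∧
    Matrix.diagonal ![f, g] =
      U * Matrix.diagonal ![l1, l2] * Uᴴ * (V * Matrix.diagonal ![k1, k2] * Vᴴ)

/-- Piece EMB.  Put the `2 × 2` matrices `U`, `V` on the plane of the coordinates `p`, `q`. -/
def S_EMB : Prop := ∀ (n : ℕ) (p q : Fin n) (x y z : Fin n → ℂ) (U V : Matrix (Fin 2) (Fin 2) ℂ),
  p ≠ q → Uᴴ * U = 1 → U * Uᴴ = 1 → Vᴴ * V = 1 → V * Vᴴ = 1 →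
  Matrix.diagonal ![z p, z q] =
    U * Matrix.diagonal ![x p, x q] * Uᴴ * (V * Matrix.diagonal ![y p, y q] * Vᴴ) →
  (∀ i, i ≠ p → i ≠ q → x i * y i = z i) →
  ∃ P Q : Matrix (Fin n) (Fin n) ℂ, Pᴴ * P = 1 ∧ P * Pᴴ = 1 ∧ Qᴴ * Q = 1 ∧ Q * Qᴴ = 1 ∧
    Matrix.diagonal z = P * Matrix.diagonal x * Pᴴ * (Q * Matrix.diagonal y * Qᴴ)

/-- Piece SELA.  All entries in the open upper half plane: angles `θ i` in `(0, π)` with sum `2 π m`,
`n = 2 h`, `h` odd.  The sums of the windows `k, …, k + h - 1` (`0 ≤ k ≤ h`) cross `π m`: there is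
`k < h` such that `τ = π m - ∑ θ (k + 1), …, θ (k + h - 1)` lies between `θ k` and `θ (k + h)`.
Order: the other `h - 2` entries `O`, then `f = z k`, then `y` = any entry outside of
`k, …, k + h`, then `g = z (k + h)`, then `E`: `k + 1, …, k + h - 1`; `2 j + 1 = h - 2`,
`e = (-1)^m`, `φ = θ k`, `γ = θ (k + h)`, `η = θ_y` in `S_W`
(`Finset.exists_equiv_extend_of_card_eq` gives the permutation). -/
def S_SELA : Prop := ∀ (n : ℕ) (z : Fin n → ℂ), n % 4 = 2 → 6 ≤ n →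
  (∀ i, star (z i) * z i = 1) → ∏ i, z i = 1 → (∀ i, 0 < (z i).im) →
  ∃ π : Equiv.Perm (Fin n), Data n (fun i => z (π i))

/-- Piece SELB.  One entry in the closed upper, another in the closed lower half plane. Order:
`n - 3` entries, then `f, y, g` (so `pp a (2 j + 4) = 1`, `2 j + 4 = n`).  Take `x` above, `z` below
and any third entry, with angles in `[-π, π]`.
(A) if `Re y ≤ Re x, Re z` (that is `|η| ≥ |φ|, |γ|`) use `f = x`, `g = z`, `e = 1`, `τ = 0`;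
(B) if `Re y ≥ Re x, Re z` use `e = -1`, `τ = π`.  Otherwise the third entry lies between
the two: rename so that (A) or (B) holds. -/
def S_SELB : Prop := ∀ (n : ℕ) (z : Fin n → ℂ), n % 2 = 0 → 4 ≤ n →
  (∀ i, star (z i) * z i = 1) → ∏ i, z i = 1 →
  (∃ u l, u ≠ l ∧ 0 ≤ (z u).im ∧ (z l).im ≤ 0) →
  ∃ π : Equiv.Perm (Fin n), Data n (fun i => z (π i))

end Run7.h222.SU
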