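import Mathlib
import Pool.Agent.Run7.h222.SU.Stm

set_option autoImplicit false

/-!
# Project SU: assembly
-/

namespace Run7.h222.SU

open Matrix Pool.Agent.H16.SUn

variable {n : ℕ}

/-- the product of four involutions -/
def Four (n : ℕ) (A : Matrix (Fin n) (Fin n) ℂ) : Prop :=
  ∃ I1 I2 I3 I4, IsInv n I1 ∧ IsInv n I2 ∧ IsInv n I3 ∧ IsInv n I4 ∧ A = I1 * I2 * I3 * I4

theorem four_conj {A P : Matrix (Fin n) (Fin n) ℂ} (h1 : Pᴴ * P = 1) (h2 : P * Pᴴ = 1)
    (h : Four n A) : Four n (P * A * Pᴴ) := by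
  obtain ⟨I1, I2, I3, I4, i1, i2, i3, i4, hA⟩ := h
  refine ⟨_, _, _, _, isInv_conj h1 h2 i1, isInv_conj h1 h2 i2, isInv_conj h1 h2 i3,
    isInv_conj h1 h2 i4, ?_⟩
  calc P * A * Pᴴ = P * (I1 * I2 * (I3 * I4)) * Pᴴ := by rw [hA]; simp only [mul_assoc]
    _ = P * I1 * (1 * I2) * (1 * I3) * (1 * I4) * Pᴴ := by
        simp only [mul_assoc, one_mul]
    _ = P * I1 * (Pᴴ * P * I2) * (Pᴴ * P * I3) * (Pᴴ * P * I4) * Pᴴ := by
        rw [h1]
    _ = _ := by simp only [mul_assoc]

theorem isInv_herm {I : Matrix (Fin n) (Fin n) ℂ} (h : IsInv n I) : Iᴴ = I := by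
  obtain ⟨h1, h2⟩ := h
  rw [Matrix.mem_specialUnitaryGroup_iff, Matrix.mem_unitaryGroup_iff,
    Matrix.star_eq_conjTranspose] at h1
  calc Iᴴ = (I * I) * Iᴴ := by rw [h2, one_mul]
    _ = I * (I * Iᴴ) := by rw [mul_assoc]
    _ = I := by rw [h1.1, mul_one]

theorem four_herm {A : Matrix (Fin n) (Fin n) ℂ} (h : Four n A) : Four n Aᴴ := by
  obtain ⟨I1, I2, I3, I4, i1, i2, i3, i4, hA⟩ := h
  refine ⟨I4, I3, I2, I1, i4, i3, i2, i1, ?_⟩
  rw [hA]
  simp only [conjTranspose_mul, isInv_herm i1, isInv_herm i2, isInv_herm i3, isInv_herm i4,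
    mul_assoc]

theorem four_of_two {X Y P Q : Matrix (Fin n) (Fin n) ℂ} (hP1 : Pᴴ * P = 1) (hP2 : P * Pᴴ = 1)
    (hQ1 : Qᴴ * Q = 1) (hQ2 : Q * Qᴴ = 1)
    (hX : ∃ I1 I2, IsInv n I1 ∧ IsInv n I2 ∧ X = I1 * I2)
    (hY : ∃ I1 I2, IsInv n I1 ∧ IsInv n I2 ∧ Y = I1 * I2) :
    Four n (P * X * Pᴴ * (Q * Y * Qᴴ)) := by
  obtain ⟨I1, I2, i1, i2, hX⟩ := hX
  obtain ⟨I3, I4, i3, i4, hY⟩ := hY
  refine ⟨_, _, _, _, isInv_conj hP1 hP2 i1, isInv_conj hP1 hP2 i2, isInv_conj hQ1 hQ2 i3,
    isInv_conj hQ1 hQ2 i4, ?_⟩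
  calc P * X * Pᴴ * (Q * Y * Qᴴ) = P * I1 * (1 * I2) * Pᴴ * (Q * I3 * (1 * I4) * Qᴴ) := by
        rw [hX, hY]; simp only [mul_assoc, one_mul]
    _ = P * I1 * (Pᴴ * P * I2) * Pᴴ * (Q * I3 * (Qᴴ * Q * I4) * Qᴴ) := by
        rw [hP1, hQ1]
    _ = _ := by simp only [mul_assoc]

/-- permuting the entries of a diagonal matrix -/
theorem four_perm (π : Equiv.Perm (Fin n)) (z : Fin n → ℂ)
    (h : Four n (Matrix.diagonal (fun i => z (π i)))) : Four n (Matrix.diagonal z) := by
  set M : Matrix (Fin n) (Fin n) ℂ := mono π (fun _ => 1) with hM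
  have hMh : Mᴴ = mono π⁻¹ (fun _ => 1) := by
    ext i j
    simp only [hM, conjTranspose_apply, mono]
    by_cases hij : j = π i
    · have : i = π⁻¹ j := by rw [hij]; simp
      rw [if_pos hij, if_pos this, star_one]
    · have : ¬ i = π⁻¹ j := by
        intro h'
        apply hij
        rw [h']
        simp
      rw [if_neg hij, if_neg this, star_zero]
  have h1 : Mᴴ * M = 1 := by
    rw [hMh, hM, mono_mul]
    simp only [inv_mul_cancel, mul_one]
    rw [← diag_mono, Matrix.diagonal_one]
  have h2 : M * Mᴴ = 1 := mul_eq_one_comm.mp h1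
  have h3 : Matrix.diagonal z = M * Matrix.diagonal (fun i => z (π i)) * Mᴴ := by
    rw [hMh, hM, diag_mono, diag_mono, mono_mul, mono_mul]
    simp only [mul_one, one_mul, mul_inv_cancel]
    congr 1
    funext i
    simp
  rw [h3]
  exact four_conj h1 h2 h

theorem pp_all (z : Fin n → ℂ) : pp z n = ∏ i, z i := by
  unfold pp
  rw [Finset.prod_range]
  exact Finset.prod_congr rfl (fun i _ => by rw [dif_pos i.2])

/-- the sign of the first pairing -/
theorem sign_sX (hn : n % 2 = 0) (hn2 : 2 ≤ n) :
    Equiv.Perm.sign (sX n) = (-1) ^ (n / 2) := by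
  have hsq : (sX n) ^ 2 = 1 := by
    ext i : 1
    rw [pow_two, Equiv.Perm.mul_apply, Equiv.Perm.one_apply]
    exact tX_inv i
  have hne : ∀ i : Fin n, sX n i ≠ i := by
    intro i hi
    rw [sX_apply] at hi
    unfold tX at hi
    by_cases h : (i : ℕ) % 2 = 0
    · have h' : (i : ℕ) + 1 < n := by omega
      rw [if_pos h, dif_pos h'] at hi
      have := congrArg Fin.val hi
      simp at this
    · rw [if_neg h] at hi
      have := congrArg Fin.val hi
      simp at this
      omega
  have hne1 : sX n ≠ 1 := by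
    intro h
    exact hne ⟨0, by omega⟩ (by rw [h]; rfl)
  have hord : orderOf (sX n) = 2 := orderOf_eq_prime hsq hne1
  obtain ⟨m, hm⟩ := Equiv.Perm.cycleType_prime_order (σ := sX n) (by rw [hord]; exact Nat.prime_two)
  have hsupp : (sX n).support = Finset.univ := by
    ext i
    simp only [Equiv.Perm.mem_support, Finset.mem_univ, iff_true]
    exact hne i
  have hsum := Equiv.Perm.sum_cycleType (sX n)
  rw [hm, hord, hsupp, Finset.card_univ, Fintype.card_fin, Multiset.sum_replicate] at hsum
  have hs := Equiv.Perm.sign_of_cycleType (sX n)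
  rw [hm, hord, Multiset.sum_replicate, Multiset.card_replicate] at hs
  rw [hs]
  have e1 : n / 2 = m + 1 := by
    simp only [smul_eq_mul] at hsum
    omega
  rw [e1]
  simp only [smul_eq_mul]
  have h2 : ((-1 : ℤˣ) ^ (m + 1)) ^ 2 = 1 := by
    rw [← pow_mul, mul_comm, pow_mul]
    simp
  rw [pow_add, pow_mul, h2, one_mul]

/-- the last case -/
theorem four_data (hB : S_BLK) (hE : S_EMB) (a : Fin n → ℂ) (hn : Equiv.Perm.sign (sX n) = -1)
    (ha : ∀ i, star (a i) * a i = 1) (hp : ∏ i, a i = 1) (hd : Data n a) :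
    Four n (Matrix.diagonal a) := by
  obtain ⟨j, hj, e, w, he, hw0, hw1, heq⟩ := hd
  set p : Fin n := ⟨2 * j + 1, by omega⟩ with hpdef
  set y : Fin n := ⟨2 * j + 2, by omega⟩ with hydef
  set q : Fin n := ⟨2 * j + 3, hj⟩ with hqdef
  have hpq : p ≠ q := by intro h; have := congrArg Fin.val h; simp [hpdef, hqdef] at this
  have hyp : y ≠ p := by intro h; have := congrArg Fin.val h; simp [hpdef, hydef] at this
  have hyq : y ≠ q := by intro h; have := congrArg Fin.val h; simp [hydef, hqdef] at this
  have he2 : e * e = 1 := by rcases he with h | h <;> rw [h] <;> norm_num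
  have hes : star e = e := by rcases he with h | h <;> rw [h] <;> simp
  set Pj : ℂ := pp a (2 * j + 1) with hPj
  set s : ℂ := pp a (2 * j + 4) with hs
  have hPn : star Pj * Pj = 1 := pp_norm a ha _
  have hsn : star s * s = 1 := pp_norm a ha _
  have hsval : s = Pj * a p * a y * a q := by
    have h1 := pp_succ a p
    have h2 := pp_succ a y
    have h3 := pp_succ a q
    simp only [hpdef, hydef, hqdef] at h1 h2 h3 ⊢
    rw [hs, hPj]
    rw [show 2 * j + 4 = 2 * j + 3 + 1 by ring, h3, h2, h1]
  -- the corrected sequence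
  set b : Fin n → ℂ := fun i => if i = p then e * star (a y) * star Pj
    else if i = q then e * s else a i with hb
  have hbp : b p = e * star (a y) * star Pj := by simp [hb]
  have hbq : b q = e * s := by simp [hb, hpq.symm]
  have hby : b y = a y := by simp [hb, hyp, hyq]
  have hbo : ∀ i, i ≠ p → i ≠ q → b i = a i := fun i h1 h2 => by simp [hb, h1, h2]
  have hbn : ∀ i, star (b i) * b i = 1 := by
    intro i
    by_cases h1 : i = p
    · rw [h1, hbp]
      simp only [star_mul', star_star, hes]
      calc e * a y * Pj * (e * star (a y) * star Pj)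
          = (e * e) * (star (a y) * a y) * (star Pj * Pj) := by ring
        _ = 1 := by rw [he2, ha, hPn]; norm_num
    · by_cases h2 : i = q
      · rw [h2, hbq]
        simp only [star_mul', hes]
        calc e * star s * (e * s) = (e * e) * (star s * s) := by ring
          _ = 1 := by rw [he2, hsn]; norm_num
      · rw [hbo i h1 h2]; exact ha i
  have hlow : ∀ k, k ≤ 2 * j + 1 → pp b k = pp a k := by
    intro k hk
    unfold pp
    apply Finset.prod_congr rfl
    intro i hi
    rw [Finset.mem_range] at hi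
    have hin : i < n := by omega
    rw [dif_pos hin, dif_pos hin]
    apply hbo
    · intro h; have := congrArg Fin.val h; simp [hpdef] at this; omega
    · intro h; have := congrArg Fin.val h; simp [hqdef] at this; omega
  have hb1 : pp b (2 * j + 1) = Pj := hlow _ le_rfl
  have hb2 : pp b (2 * j + 2) = e * star (a y) := by
    have h1 := pp_succ b p
    simp only [hpdef] at h1
    rw [show 2 * j + 2 = 2 * j + 1 + 1 by ring, h1, hb1]
    have h2 : b ⟨2 * j + 1, by omega⟩ = e * star (a y) * star Pj := hbp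
    rw [h2]
    linear_combination (e * star (a y)) * hPn
  have hb3 : pp b (2 * j + 3) = e := by
    have h1 := pp_succ b y
    simp only [hydef] at h1
    rw [show 2 * j + 3 = 2 * j + 2 + 1 by ring, h1, hb2]
    have h2 : b ⟨2 * j + 2, by omega⟩ = a y := hby
    rw [h2]
    linear_combination e * ha y
  have hb4 : pp b (2 * j + 4) = s := by
    have h1 := pp_succ b q
    simp only [hqdef] at h1
    rw [show 2 * j + 4 = 2 * j + 3 + 1 by ring, h1, hb3]
    have h2 : b ⟨2 * j + 3, hj⟩ = e * s := hbq
    rw [h2]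
    linear_combination s * he2
  have hhigh : ∀ k, pp b (2 * j + 4 + k) = pp a (2 * j + 4 + k) := by
    intro k
    induction k with
    | zero => rw [add_zero, hb4]
    | succ k ih =>
      unfold pp at ih ⊢
      rw [show 2 * j + 4 + (k + 1) = 2 * j + 4 + k + 1 by ring, Finset.prod_range_succ,
        Finset.prod_range_succ, ih]
      by_cases hin : 2 * j + 4 + k < n
      · rw [dif_pos hin, dif_pos hin, hbo]
        · intro h; have := congrArg Fin.val h; simp [hpdef] at this; omega
        · intro h; have := congrArg Fin.val h; simp [hqdef] at this; omega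
      · rw [dif_neg hin, dif_neg hin]
  have hbprod : ∏ i, b i = 1 := by
    rw [← pp_all b, ← hp, ← pp_all a]
    have h := hhigh (n - (2 * j + 4))
    rwa [show 2 * j + 4 + (n - (2 * j + 4)) = n by omega] at h
  -- the values of the factors
  have hxp : xx b p = star Pj := by
    unfold xx
    have : ¬ ((p : Fin n) : ℕ) % 2 = 0 := by simp [hpdef] <;> omega
    rw [if_neg this]
    simp only [hpdef]
    rw [hb1]
  have hxy : xx b y = e := by
    unfold xx
    have : ((y : Fin n) : ℕ) % 2 = 0 := by simp [hydef] <;> omega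
    rw [if_pos this]
    simp only [hydef]
    rw [show 2 * j + 2 + 1 = 2 * j + 3 by ring, hb3]
  have hxq : xx b q = e := by
    unfold xx
    have : ¬ ((q : Fin n) : ℕ) % 2 = 0 := by simp [hqdef] <;> omega
    rw [if_neg this]
    simp only [hqdef]
    rw [hb3, hes]
  have hyyp : yy b p = e * star (a y) := by
    unfold yy
    have : ((p : Fin n) : ℕ) % 2 = 1 := by simp [hpdef] <;> omega
    rw [if_pos this]
    simp only [hpdef]
    rw [show 2 * j + 1 + 1 = 2 * j + 2 by ring, hb2]
  have hyyq : yy b q = s := by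
    unfold yy
    have : ((q : Fin n) : ℕ) % 2 = 1 := by simp [hqdef] <;> omega
    rw [if_pos this]
    simp only [hqdef]
    rw [show 2 * j + 3 + 1 = 2 * j + 4 by ring, hb4]
  obtain ⟨U, V, hU1, hU2, hV1, hV2, hUV⟩ := hB (star Pj) e (e * star (a y)) s (a p) (a q) w
    (by rw [star_star, mul_comm]; exact hPn) (by rw [hes]; exact he2)
    (by simp only [star_mul', star_star, hes]
        calc e * a y * (e * star (a y)) = (e * e) * (star (a y) * a y) := by ring
          _ = 1 := by rw [he2, ha]; norm_num)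
    hsn (ha p) (ha q)
    (by rw [hsval]
        calc star Pj * e * (e * star (a y) * (Pj * a p * a y * a q))
            = (star Pj * Pj) * (e * e) * (star (a y) * a y) * (a p * a q) := by ring
          _ = a p * a q := by rw [hPn, he2, ha]; ring)
    hw0 hw1 (by rw [star_star, hes]; exact heq)
  obtain ⟨P, Q, hP1, hP2, hQ1, hQ2, hPQ⟩ := hE n p q (xx b) (yy b) a U V hpq hU1 hU2 hV1 hV2
    (by rw [hxp, hxq, hyyp, hyyq]; exact hUV)
    (fun i h1 h2 => by rw [xx_mul_yy b hbn i, hbo i h1 h2])
  rw [hPQ]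
  apply four_of_two hP1 hP2 hQ1 hQ2
  · -- the first factor
    have hsy : sX n y = q := by
      rw [sX_apply]
      unfold tX
      have h1 : ((y : Fin n) : ℕ) % 2 = 0 := by simp [hydef] <;> omega
      have h2 : ((y : Fin n) : ℕ) + 1 < n := by simp [hydef] <;> omega
      rw [if_pos h1, dif_pos h2]
    have hsq : sX n q = y := by
      rw [← hsy]; exact tX_inv y
    set σ : Equiv.Perm (Fin n) := sX n * Equiv.swap y q with hσ
    have hσv : ∀ i, σ i = if i = y ∨ i = q then i else sX n i := by
      intro i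
      simp only [hσ, Equiv.Perm.mul_apply, Equiv.swap_apply_def]
      by_cases e1 : i = y
      · subst e1; simp [hsq]
      · by_cases e2 : i = q
        · subst e2; simp [hsy, e1]
        · simp [e1, e2]
    have hcl : ∀ i, ¬ (i = y ∨ i = q) → ¬ (sX n i = y ∨ sX n i = q) := by
      intro i hi h
      apply hi
      rcases h with h | h
      · right
        have h5 : sX n (sX n i) = i := tX_inv i
        rw [h, hsy] at h5
        exact h5.symm
      · left
        have h5 : sX n (sX n i) = i := tX_inv i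
        rw [h, hsq] at h5
        exact h5.symm
    apply two_inv' σ (xx b)
    · intro i
      by_cases hi : i = y ∨ i = q
      · rw [hσv i, if_pos hi, hσv i, if_pos hi]
      · rw [hσv i, if_neg hi, hσv (sX n i), if_neg (hcl i hi)]
        exact tX_inv i
    · exact xx_norm b hbn
    · intro i
      by_cases hi : i = y ∨ i = q
      · rw [hσv i, if_pos hi]
        rcases hi with hi | hi
        · rw [hi, hxy, hes]
        · rw [hi, hxq, hes]
      · rw [hσv i, if_neg hi]
        exact xx_sX b hbprod i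
    · exact prod_one (sX n) (xx b) tX_inv (xx_norm b hbn) (xx_sX b hbprod) (xx_fix b hbprod)
    · left
      rw [hσ, Equiv.Perm.sign_mul, hn, Equiv.Perm.sign_swap hyq]
      decide
  · exact yy_two b (by omega) hbn hbprod

/-- diagonal matrices -/
theorem four_diag (hB : S_BLK) (hE : S_EMB) (hSA : S_SELA) (hSB : S_SELB) (hn : 3 ≤ n)
    (z : Fin n → ℂ) (hz : ∀ i, star (z i) * z i = 1) (hp : ∏ i, z i = 1) :
    Four n (Matrix.diagonal z) := by
  by_cases hc : Equiv.Perm.sign (sX n) = 1 ∨ n % 2 = 1
  · have h1 := xx_two z (by omega) hz hp hc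
    have h2 := yy_two z (by omega) hz hp
    have h3 := four_of_two (P := 1) (Q := 1) (by simp) (by simp) (by simp) (by simp) h1 h2
    simp only [conjTranspose_one, mul_one, one_mul] at h3
    rw [Matrix.diagonal_mul_diagonal] at h3
    have : (fun i => xx z i * yy z i) = z := funext (fun i => xx_mul_yy z hz i)
    rw [this] at h3
    exact h3
  · push Not at hc
    obtain ⟨hc1, hc2⟩ := hc
    have hsg : Equiv.Perm.sign (sX n) = -1 := by
      rcases Int.units_eq_one_or (Equiv.Perm.sign (sX n)) with h | h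
      · exact absurd h hc1
      · exact h
    have heven : n % 2 = 0 := by omega
    have h4 : n % 4 = 2 := by
      by_contra h
      have h5 : n % 4 = 0 := by omega
      have h6 := sign_sX (n := n) heven (by omega)
      have h7 : Even (n / 2) := by rw [Nat.even_iff]; omega
      rw [h7.neg_one_pow] at h6
      exact hc1 h6
    -- the three cases
    have key : ∀ z' : Fin n → ℂ, (∀ i, star (z' i) * z' i = 1) → ∏ i, z' i = 1 →
        ((∀ i, 0 < (z' i).im) ∨ ∃ u l, u ≠ l ∧ 0 ≤ (z' u).im ∧ (z' l).im ≤ 0) →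
        Four n (Matrix.diagonal z') := by
      intro z' h1 h2 h3
      have h8 : ∃ π : Equiv.Perm (Fin n), Data n (fun i => z' (π i)) := by
        rcases h3 with h3 | h3
        · exact hSA n z' h4 (by omega) h1 h2 h3
        · exact hSB n z' heven (by omega) h1 h2 h3
      obtain ⟨π, hπ⟩ := h8
      apply four_perm π
      apply four_data hB hE _ hsg (fun i => h1 (π i)) _ hπ
      rw [← h2]
      exact Equiv.prod_comp π z'
    by_cases hA : ∀ i, 0 < (z i).im
    · exact key z hz hp (Or.inl hA)
    by_cases hL : ∀ i, (z i).im < 0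
    · have h9 := key (fun i => star (z i)) (fun i => by rw [star_star, mul_comm]; exact hz i)
        (by rw [← star_prod, hp, star_one])
        (Or.inl fun i => by
          have := hL i
          simp only [Complex.star_def, Complex.conj_im]
          linarith)
      have h10 := four_herm h9
      rw [Matrix.diagonal_conjTranspose] at h10
      have h11 : star (fun i => star (z i)) = z := by
        funext i
        simp
      rw [h11] at h10
      exact h10
    push Not at hA hL
    obtain ⟨l, hl⟩ := hA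
    obtain ⟨u, hu⟩ := hL
    by_cases hul : u = l
    · subst hul
      obtain ⟨v, hv⟩ : ∃ v : Fin n, v ≠ u := by
        by_cases h0 : u = ⟨0, by omega⟩
        · exact ⟨⟨1, by omega⟩, by rw [h0]; intro h; simpa using congrArg Fin.val h⟩
        · exact ⟨⟨0, by omega⟩, fun h => h0 h.symm⟩
      rcases le_total 0 (z v).im with h | h
      · exact key z hz hp (Or.inr ⟨v, u, hv, h, hl⟩)
      · exact key z hz hp (Or.inr ⟨u, v, hv.symm, hu, h⟩)
    · exact key z hz hp (Or.inr ⟨u, l, hul, hu, hl⟩)

/-- everything together -/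
theorem four_all (hB : S_BLK) (hE : S_EMB) (hSA : S_SELA) (hSB : S_SELB) (hn : 3 ≤ n)
    {A : Matrix (Fin n) (Fin n) ℂ} (hA : A ∈ Matrix.specialUnitaryGroup (Fin n) ℂ) :
    Four n A := by
  obtain ⟨P, z, e1, e2, e3, e4, e5⟩ := reduce hA
  rw [e3]
  apply four_conj e1 e2
  rw [Matrix.diagonal_mul_diagonal]
  have : (fun i => xx z i * yy z i) = z := funext (fun i => xx_mul_yy z e4 i)
  rw [this]
  exact four_diag hB hE hSA hSB hn z e4 e5

end Run7.h222.SU
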